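import Pool.Agent.Helper25.HL.Goals1

/-!
# Project HL (MP_03bcbb_an): packet HL-FIN

From the discretised labels to the output of the near-level lemma.
-/

set_option autoImplicit false

open Filter Topology

noncomputable section

namespace Pool.Agent.Helper25.HL.F9



section basic

variable {ι κ : Type} [Fintype ι] [Fintype κ]

theorem sq_nn (z : ι → ℂ) : 0 ≤ sq z := Finset.sum_nonneg fun _ _ => by positivity

theorem sq_smul (c : ℂ) (z : ι → ℂ) : sq (c • z) = ‖c‖ ^ 2 * sq z := by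
  unfold sq
  rw [Finset.mul_sum]
  refine Finset.sum_congr rfl fun t _ => ?_
  rw [Pi.smul_apply, smul_eq_mul, norm_mul, mul_pow]

theorem sq_neg (z : ι → ℂ) : sq (-z) = sq z := by
  unfold sq
  refine Finset.sum_congr rfl fun t _ => ?_
  rw [Pi.neg_apply, norm_neg]

theorem sq_sub_comm (x y : ι → ℂ) : sq (x - y) = sq (y - x) := by
  rw [← sq_neg, neg_sub]

theorem sq_add_le (x y : ι → ℂ) : sq (x + y) ≤ 2 * sq x + 2 * sq y := by
  unfold sq
  rw [Finset.mul_sum, Finset.mul_sum, ← Finset.sum_add_distrib]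
  refine Finset.sum_le_sum fun t _ => ?_
  have h := norm_add_le (x t) (y t)
  have h0 := norm_nonneg (x t + y t)
  rw [Pi.add_apply]
  nlinarith [sq_nonneg (‖x t‖ - ‖y t‖), norm_nonneg (x t), norm_nonneg (y t)]

theorem sq_sub_le (x y : ι → ℂ) : sq (x - y) ≤ 2 * sq x + 2 * sq y := by
  rw [sub_eq_add_neg]
  have := sq_add_le x (-y)
  rwa [sq_neg] at this

theorem sq_add5_le (a b c d e : ι → ℂ) :
    sq (a + b + c + d + e) ≤ 5 * (sq a + sq b + sq c + sq d + sq e) := by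
  unfold sq
  rw [← Finset.sum_add_distrib, ← Finset.sum_add_distrib, ← Finset.sum_add_distrib,
    ← Finset.sum_add_distrib, Finset.mul_sum]
  refine Finset.sum_le_sum fun t _ => ?_
  have h : ‖a t + b t + c t + d t + e t‖ ≤ ‖a t‖ + ‖b t‖ + ‖c t‖ + ‖d t‖ + ‖e t‖ := by
    refine (norm_add_le _ _).trans (add_le_add ?_ le_rfl)
    refine (norm_add_le _ _).trans (add_le_add ?_ le_rfl)
    refine (norm_add_le _ _).trans (add_le_add ?_ le_rfl)
    exact norm_add_le _ _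
  have h0 := norm_nonneg (a t + b t + c t + d t + e t)
  have h1 : ‖a t + b t + c t + d t + e t‖ ^ 2 ≤
      (‖a t‖ + ‖b t‖ + ‖c t‖ + ‖d t‖ + ‖e t‖) ^ 2 := pow_le_pow_left₀ h0 h 2
  refine h1.trans ?_
  nlinarith [sq_nonneg (‖a t‖ - ‖b t‖), sq_nonneg (‖a t‖ - ‖c t‖), sq_nonneg (‖a t‖ - ‖d t‖),
    sq_nonneg (‖a t‖ - ‖e t‖), sq_nonneg (‖b t‖ - ‖c t‖), sq_nonneg (‖b t‖ - ‖d t‖),
    sq_nonneg (‖b t‖ - ‖e t‖), sq_nonneg (‖c t‖ - ‖d t‖), sq_nonneg (‖c t‖ - ‖e t‖),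
    sq_nonneg (‖d t‖ - ‖e t‖)]

theorem sq_elim (x : ι → ℂ) (y : κ → ℂ) : sq (Sum.elim x y) = sq x + sq y := by
  unfold sq
  rw [Fintype.sum_sum_type]
  rfl

theorem ip_cs (x y : ι → ℂ) : ‖ip x y‖ ^ 2 ≤ sq x * sq y := by
  have h : ‖ip x y‖ ≤ ∑ t, ‖x t‖ * ‖y t‖ := by
    unfold ip
    refine (norm_sum_le _ _).trans (Finset.sum_le_sum fun t _ => ?_)
    rw [norm_mul, RCLike.norm_conj]
  have h2 := Finset.sum_mul_sq_le_sq_mul_sq Finset.univ (fun t => ‖x t‖) (fun t => ‖y t‖)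
  exact (pow_le_pow_left₀ (norm_nonneg _) h 2).trans h2

theorem ip_add_right (x y z : ι → ℂ) : ip x (y + z) = ip x y + ip x z := by
  unfold ip
  rw [← Finset.sum_add_distrib]
  refine Finset.sum_congr rfl fun t _ => ?_
  rw [Pi.add_apply, mul_add]

theorem ip_smul_right (c : ℂ) (x y : ι → ℂ) : ip x (c • y) = c * ip x y := by
  unfold ip
  rw [Finset.mul_sum]
  refine Finset.sum_congr rfl fun t _ => ?_
  rw [Pi.smul_apply, smul_eq_mul]
  ring

theorem ip_smul_left (c : ℂ) (x y : ι → ℂ) : ip (c • x) y = (starRingEnd ℂ) c * ip x y := by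
  unfold ip
  rw [Finset.mul_sum]
  refine Finset.sum_congr rfl fun t _ => ?_
  rw [Pi.smul_apply, smul_eq_mul, map_mul]
  ring

theorem ip_smul_left_real (c : ℝ) (x y : ι → ℂ) : ip ((c : ℂ) • x) y = (c : ℂ) * ip x y := by
  rw [ip_smul_left, Complex.conj_ofReal]

/-- `ip x` as a linear map. -/
def ipL (x : ι → ℂ) : (ι → ℂ) →ₗ[ℂ] ℂ where
  toFun y := ip x y
  map_add' y z := ip_add_right x y z
  map_smul' c y := ip_smul_right c x y

theorem l1_nn (z : ι → ℂ) : 0 ≤ l1 z := Finset.sum_nonneg fun _ _ => norm_nonneg _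

theorem sq_le_l1 (z : ι → ℂ) : sq z ≤ l1 z ^ 2 := by
  unfold sq l1
  exact Finset.sum_sq_le_sq_sum_of_nonneg fun _ _ => norm_nonneg _

end basic

theorem nsq (x : ℝ) (hx : 0 ≤ x) : ‖((Real.sqrt x : ℝ) : ℂ)‖ ^ 2 = x := by
  rw [Complex.norm_real, Real.norm_of_nonneg (Real.sqrt_nonneg _), Real.sq_sqrt hx]

section resl

variable {q : ℕ}

theorem l1_res_le (S : Finset (Fin q)) (β : Fin q → ℂ) : l1 (res S β) ≤ l1 β := by
  unfold l1 res
  refine Finset.sum_le_sum fun t _ => ?_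
  by_cases h : t ∈ S
  · rw [if_pos h]
  · rw [if_neg h, norm_zero]; exact norm_nonneg _

theorem res_of_off (S : Finset (Fin q)) (β : Fin q → ℂ) (h : ∀ t ∉ S, β t = 0) :
    res S β = β := by
  funext t
  unfold res
  by_cases ht : t ∈ S
  · rw [if_pos ht]
  · rw [if_neg ht, h t ht]

theorem res_off (S : Finset (Fin q)) (β : Fin q → ℂ) (t : Fin q) (ht : t ∉ S) :
    res S β t = 0 := by
  unfold res; rw [if_neg ht]

theorem res_split (S S' : Finset (Fin q)) (h : S ⊆ S') (β : Fin q → ℂ) :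
    β = res S β + res (S' \ S) β + res S'ᶜ β := by
  funext t
  simp only [Pi.add_apply, res, Finset.mem_sdiff, Finset.mem_compl]
  by_cases h1 : t ∈ S
  · have h2 := h h1
    simp [h1, h2]
  · by_cases h2 : t ∈ S'
    · simp [h1, h2]
    · simp [h1, h2]

end resl

/-! ### The label space -/

/-- The index set of the labels. -/
abbrev Kap (d p : ℕ) {q : ℕ} (S : Finset (Fin q)) : Type :=
  Fin d ⊕ (Fin p ⊕ (Fin p ⊕ {t // t ∈ S}))

theorem card_kap (d p : ℕ) {q : ℕ} (S : Finset (Fin q)) :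
    Fintype.card (Kap d p S) = d + 2 * p + S.card := by
  simp only [Kap, Fintype.card_sum, Fintype.card_fin, Fintype.card_coe]
  ring

/-- The label vector. -/
def mkL (d p : ℕ) {q : ℕ} (S : Finset (Fin q)) : Arg d p q →ₗ[ℂ] (Kap d p S → ℂ) where
  toFun x := Sum.elim x.1 (Sum.elim x.2.1 (Sum.elim x.2.2.1 (fun t => x.2.2.2 t.1)))
  map_add' x y := by
    funext k
    rcases k with k | k | k | k <;> rfl
  map_smul' c x := by
    funext k
    rcases k with k | k | k | k <;> rfl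

theorem sq_mkL (d p : ℕ) {q : ℕ} (S : Finset (Fin q)) (x : Arg d p q) :
    sq (mkL d p S x) = sq x.1 + (sq x.2.1 + (sq x.2.2.1 + sq (res S x.2.2.2))) := by
  show sq (Sum.elim x.1 (Sum.elim x.2.1 (Sum.elim x.2.2.1 (fun t : {t // t ∈ S} =>
    x.2.2.2 t.1)))) = _
  rw [sq_elim, sq_elim, sq_elim]
  congr 3
  unfold sq res
  rw [Finset.sum_coe_sort S (fun t => ‖x.2.2.2 t‖ ^ 2)]
  rw [← Finset.sum_subset (Finset.subset_univ S)]
  · refine Finset.sum_congr rfl fun t ht => ?_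
    rw [if_pos ht]
  · intro t _ ht
    rw [if_neg ht, norm_zero]; norm_num

theorem sq_mkL_off (d p : ℕ) {q : ℕ} (S : Finset (Fin q)) (x : Arg d p q)
    (h : ∀ t ∉ S, x.2.2.2 t = 0) : sq (mkL d p S x) = sqA x := by
  rw [sq_mkL, res_of_off S _ h]
  unfold sqA
  ring

/-- The map of the arguments. -/
def lmA (d : ℕ) {p q : ℕ} (σ : Fin p → Fin q → Bool)
    (bm : ((Fin p → ℂ) × (Fin q → ℂ)) →ₗ[ℂ] (Fin q → ℂ)) : Arg d p q →ₗ[ℂ] Arg d p q where
  toFun x := (x.1, x.2.1, RV σ (bm x.2.2), bm x.2.2)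
  map_add' x y := by
    simp only [Prod.fst_add, Prod.snd_add, map_add, Prod.mk_add_mk]
  map_smul' c x := by
    simp only [Prod.smul_fst, Prod.smul_snd, map_smul, RingHom.id_apply, Prod.smul_mk]

/-! ### Weighted products -/

theorem opn' (h5 : S_OPN) {κ ι τ : Type} [Fintype κ] [Fintype ι] [Fintype τ]
    (t r : ι → κ → ℂ) (x : ι → τ → ℂ) (ϖ : ι → ℝ) (hϖ : ∀ j, 0 ≤ ϖ j)
    (ct cr : ℝ) (hct : 0 ≤ ct) (hcr : 0 ≤ cr)
    (h1 : ∀ v : ι → ℂ, sq (∑ j, v j • t j) ≤ ct * ∑ j, ‖v j‖ ^ 2)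
    (h2 : ∀ v : ι → ℂ, sq (∑ j, v j • r j) ≤ cr * ∑ j, ‖v j‖ ^ 2) :
    ∑ i, sq (∑ j, (ip (t j) (r i) * ((Real.sqrt (ϖ j) : ℝ) : ℂ)) • x j) ≤
      ct * cr * ∑ j, ϖ j * sq (x j) := by
  have h := h5 κ ι τ t r (fun j => ((Real.sqrt (ϖ j) : ℝ) : ℂ) • x j) ct cr hct hcr h1 h2
  have e1 : ∀ j, sq (((Real.sqrt (ϖ j) : ℝ) : ℂ) • x j) = ϖ j * sq (x j) := fun j => by
    rw [sq_smul, nsq _ (hϖ j)]
  simp only [e1, smul_smul] at h
  exact h

theorem mv_sum {κ ι : Type} [Fintype κ] [Fintype ι] (W : Matrix κ κ ℂ) (v : ι → ℂ)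
    (a : ι → κ → ℂ) : W.mulVec (∑ j, v j • a j) = ∑ j, v j • W.mulVec (a j) := by
  have h := map_sum W.mulVecLin (fun j => v j • a j) Finset.univ
  simp only [map_smul, Matrix.mulVecLin_apply] at h
  exact h

/-! ### The data -/

section data

variable {p q : ℕ} {σ : Fin p → Fin q → Bool} {K R δ θ : ℝ} {d N : ℕ}
  (s : Sys σ K R δ θ d N) {ε Λ : ℝ}

/-- Square root of the weight. -/
def rr (j : Fin N) : ℂ := ((Real.sqrt (s.ϖ j) : ℝ) : ℂ)

theorem nrr (j : Fin N) : ‖rr s j‖ ^ 2 = s.ϖ j := nsq _ (s.hϖ j)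

theorem rr_mul (j : Fin N) : rr s j * rr s j = (s.ϖ j : ℂ) := by
  unfold rr
  rw [← Complex.ofReal_mul, Real.mul_self_sqrt (s.hϖ j)]

/-- The arguments of the system. -/
def zA (j : Fin N) : Arg d p q := (s.e j, s.A j, s.u j, s.w j)

variable {s} (lab : Lab s ε Λ)

/-- The labels as arguments. -/
def lamA (j : Fin N) : Arg d p q :=
  (lab.eh j, lab.ah j, RV σ (res lab.S (lab.bh j)), res lab.S (lab.bh j))

/-- The labels. -/
def lam (j : Fin N) : Kap d p lab.S → ℂ := mkL d p lab.S (lamA lab j)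

/-- The noisy labels. -/
def Lz (j : Fin N) : Kap d p lab.S → ℂ := mkL d p lab.S (lmA d σ lab.bm (zA s j))

theorem lamA_off (j : Fin N) (t : Fin q) (ht : t ∉ lab.S) : (lamA lab j).2.2.2 t = 0 :=
  res_off _ _ t ht

theorem sq_nu (j : Fin N) : sq (Lz lab j - lam lab j) =
    sq (s.e j - lab.eh j) + sq (s.A j - lab.ah j) +
      (sq (RV σ (lab.bm (s.u j, s.w j) - res lab.S (lab.bh j))) +
        sq (lab.bm (s.u j, s.w j) - res lab.S (lab.bh j))) := by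
  have e1 : Lz lab j - lam lab j = mkL d p lab.S (lmA d σ lab.bm (zA s j) - lamA lab j) := by
    unfold Lz lam
    rw [map_sub]
  have e2 : lmA d σ lab.bm (zA s j) - lamA lab j = (s.e j - lab.eh j, s.A j - lab.ah j,
      RV σ (lab.bm (s.u j, s.w j) - res lab.S (lab.bh j)),
      lab.bm (s.u j, s.w j) - res lab.S (lab.bh j)) := by
    rw [map_sub]
    rfl
  rw [e1, e2, sq_mkL_off]
  · unfold sqA
    ring
  · intro t ht
    show lab.bm (s.u j, s.w j) t - res lab.S (lab.bh j) t = 0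
    rw [lab.hbm _ t ht, res_off _ _ t ht, sub_zero]

variable (W : Matrix (Kap d p lab.S) (Kap d p lab.S) ℂ)

/-- The functionals. -/
def gg (j : Fin N) : Arg d p q →ₗ[ℂ] ℂ :=
  (ipL (W.mulVec (lam lab j))) ∘ₗ W.mulVecLin ∘ₗ (mkL d p lab.S) ∘ₗ (lmA d σ lab.bm)

theorem gg_z (i j : Fin N) : gg lab W j (zA s i) = ip (W.mulVec (lam lab j))
    (W.mulVec (Lz lab i)) := rfl

theorem gg_x (j : Fin N) (x : Arg d p q) : gg lab W j x = ip (W.mulVec (lam lab j))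
    (W.mulVec (mkL d p lab.S (lmA d σ lab.bm x))) := rfl

/-- `a_j`. -/
def va (j : Fin N) : Kap d p lab.S → ℂ := rr s j • lam lab j

/-- `b_j`. -/
def vb (j : Fin N) : Kap d p lab.S → ℂ := rr s j • (Lz lab j - lam lab j)

theorem va_add_vb (j : Fin N) : va lab j + vb lab j = rr s j • Lz lab j := by
  unfold va vb
  rw [← smul_add, add_sub_cancel]

/-- The coefficients `s_ji`. -/
def sji (i j : Fin N) : ℂ := ip (W.mulVec (va lab j)) (W.mulVec (va lab i + vb lab i))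

theorem key (i j : Fin N) : sji lab W i j = rr s j * rr s i * gg lab W j (zA s i) := by
  unfold sji
  rw [va_add_vb, gg_z]
  unfold va
  rw [Matrix.mulVec_smul, Matrix.mulVec_smul, ip_smul_right]
  unfold rr
  rw [ip_smul_left_real]
  ring

/-- The coefficients `c_ij = s_ji r_j`. -/
def cij (i j : Fin N) : ℂ := sji lab W i j * rr s j

theorem cij_eq (i j : Fin N) :
    cij lab W i j = rr s i * ((s.ϖ j : ℂ) * gg lab W j (zA s i)) := by
  unfold cij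
  rw [key, ← rr_mul]
  ring

theorem pull {τ : Type} [Fintype τ] (i : Fin N) (x : Fin N → τ → ℂ) :
    rr s i • ∑ j, ((s.ϖ j : ℂ) * gg lab W j (zA s i)) • x j = ∑ j, cij lab W i j • x j := by
  rw [Finset.smul_sum]
  refine Finset.sum_congr rfl fun j _ => ?_
  rw [smul_smul, cij_eq]

/-- The error arguments. -/
def XA (i : Fin N) : Arg d p q := ∑ j, cij lab W i j • lamA lab j - rr s i • lamA lab i

theorem XA_1 (i : Fin N) : (XA lab W i).1 = ∑ j, cij lab W i j • lab.eh j - rr s i • lab.eh i := by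
  unfold XA
  rw [Prod.fst_sub, Prod.fst_sum, Prod.smul_fst]
  rfl

theorem XA_2 (i : Fin N) : (XA lab W i).2.1 =
    ∑ j, cij lab W i j • lab.ah j - rr s i • lab.ah i := by
  unfold XA
  rw [Prod.snd_sub, Prod.fst_sub, Prod.snd_sum, Prod.fst_sum, Prod.smul_snd, Prod.smul_fst]
  rfl

theorem XA_3 (i : Fin N) : (XA lab W i).2.2.1 =
    ∑ j, cij lab W i j • RV σ (res lab.S (lab.bh j)) - rr s i • RV σ (res lab.S (lab.bh i)) := by
  unfold XA
  rw [Prod.snd_sub, Prod.snd_sub, Prod.fst_sub, Prod.snd_sum, Prod.snd_sum, Prod.fst_sum,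
    Prod.smul_snd, Prod.smul_snd, Prod.smul_fst]
  rfl

theorem XA_4 (i : Fin N) : (XA lab W i).2.2.2 =
    ∑ j, cij lab W i j • res lab.S (lab.bh j) - rr s i • res lab.S (lab.bh i) := by
  unfold XA
  rw [Prod.snd_sub, Prod.snd_sub, Prod.snd_sub, Prod.snd_sum, Prod.snd_sum, Prod.snd_sum,
    Prod.smul_snd, Prod.smul_snd, Prod.smul_snd]
  rfl

theorem sq_err (i : Fin N) :
    sq (∑ j, sji lab W i j • va lab j - va lab i) = sqA (XA lab W i) := by
  have e1 : ∑ j, sji lab W i j • va lab j - va lab i = mkL d p lab.S (XA lab W i) := by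
    unfold XA
    rw [map_sub, map_sum, map_smul]
    congr 1
    refine Finset.sum_congr rfl fun j _ => ?_
    rw [map_smul]
    unfold va cij
    rw [smul_smul]
    rfl
  rw [e1, sq_mkL_off]
  intro t ht
  rw [XA_4]
  simp only [Pi.sub_apply, Finset.sum_apply, Pi.smul_apply, res_off _ _ t ht, smul_zero,
    Finset.sum_const_zero, sub_zero]

/-- The conclusions of TIK. -/
structure Tik (ε₃ ϵ : ℝ) : Prop where
  t1 : ∀ v : Fin N → ℂ, sq (W.mulVec (∑ j, v j • va lab j)) ≤ ∑ j, ‖v j‖ ^ 2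
  t2 : ∀ v : Fin N → ℂ, sq (W.mulVec (∑ j, v j • vb lab j)) ≤ ε₃ * ∑ j, ‖v j‖ ^ 2
  t3 : ∀ x : Kap d p lab.S → ℂ, ϵ * sq (W.mulVec x) ≤ sq x
  t4 : ∑ j, sq (W.mulVec (va lab j)) ≤ Fintype.card (Kap d p lab.S)
  t5 : ∑ i, sq (∑ j, sji lab W i j • va lab j - va lab i) ≤
    16 * ((∑ j, sq (vb lab j)) / ε₃ + ϵ * Fintype.card (Kap d p lab.S))

variable {W} {ε₃ ϵ : ℝ}

theorem ta_bd (T : Tik lab W ε₃ ϵ) (v : Fin N → ℂ) :
    sq (∑ j, v j • W.mulVec (va lab j)) ≤ 1 * ∑ j, ‖v j‖ ^ 2 := by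
  rw [← mv_sum, one_mul]
  exact T.t1 v

theorem tb_bd (T : Tik lab W ε₃ ϵ) (v : Fin N → ℂ) :
    sq (∑ j, v j • W.mulVec (vb lab j)) ≤ ε₃ * ∑ j, ‖v j‖ ^ 2 := by
  rw [← mv_sum]
  exact T.t2 v

theorem tab_bd (T : Tik lab W ε₃ ϵ) (h : ε₃ ≤ 1) (v : Fin N → ℂ) :
    sq (∑ j, v j • W.mulVec (va lab j + vb lab j)) ≤ 4 * ∑ j, ‖v j‖ ^ 2 := by
  have e : ∑ j, v j • W.mulVec (va lab j + vb lab j) =
      ∑ j, v j • W.mulVec (va lab j) + ∑ j, v j • W.mulVec (vb lab j) := by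
    rw [← Finset.sum_add_distrib]
    refine Finset.sum_congr rfl fun j _ => ?_
    rw [Matrix.mulVec_add, smul_add]
  rw [e]
  refine (sq_add_le _ _).trans ?_
  have h1 := ta_bd lab T v
  have h2 := tb_bd lab T v
  have h3 : 0 ≤ ∑ j, ‖v j‖ ^ 2 := Finset.sum_nonneg fun _ _ => by positivity
  nlinarith

theorem cij_opn (h5 : S_OPN) (T : Tik lab W ε₃ ϵ) (h : ε₃ ≤ 1) {τ : Type} [Fintype τ]
    (x : Fin N → τ → ℂ) :
    ∑ i, sq (∑ j, cij lab W i j • x j) ≤ 4 * ∑ j, s.ϖ j * sq (x j) := by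
  have h1 := opn' h5 (fun j => W.mulVec (va lab j)) (fun i => W.mulVec (va lab i + vb lab i)) x
    s.ϖ s.hϖ 1 4 (by norm_num) (by norm_num) (ta_bd lab T) (tab_bd lab T h)
  rw [one_mul] at h1
  exact h1

theorem e_part (h5 : S_OPN) (T : Tik lab W ε₃ ϵ) (h : ε₃ ≤ 1) {τ : Type} [Fintype τ]
    (x xh : Fin N → τ → ℂ) :
    ∑ i, s.ϖ i * sq (x i - ∑ j, ((s.ϖ j : ℂ) * gg lab W j (zA s i)) • x j) ≤
      2 * ∑ i, sq (∑ j, cij lab W i j • xh j - rr s i • xh i) +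
        20 * ∑ j, s.ϖ j * sq (x j - xh j) := by
  have h1 := cij_opn lab h5 T h (fun j => x j - xh j)
  have h2 : ∀ i, s.ϖ i * sq (x i - ∑ j, ((s.ϖ j : ℂ) * gg lab W j (zA s i)) • x j) ≤
      2 * sq (∑ j, cij lab W i j • xh j - rr s i • xh i) +
        (4 * (s.ϖ i * sq (x i - xh i)) + 4 * sq (∑ j, cij lab W i j • (x j - xh j))) := by
    intro i
    have e1 : s.ϖ i * sq (x i - ∑ j, ((s.ϖ j : ℂ) * gg lab W j (zA s i)) • x j) =
        sq (rr s i • x i - ∑ j, cij lab W i j • x j) := by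
      rw [← nrr s i, ← sq_smul, smul_sub, pull]
    have e2 : rr s i • x i - ∑ j, cij lab W i j • x j =
        (rr s i • (x i - xh i) - ∑ j, cij lab W i j • (x j - xh j)) -
          (∑ j, cij lab W i j • xh j - rr s i • xh i) := by
      simp only [smul_sub, Finset.sum_sub_distrib]
      abel
    rw [e1, e2]
    have h3 := sq_sub_le (rr s i • (x i - xh i) - ∑ j, cij lab W i j • (x j - xh j))
      (∑ j, cij lab W i j • xh j - rr s i • xh i)
    have h4 := sq_sub_le (rr s i • (x i - xh i)) (∑ j, cij lab W i j • (x j - xh j))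
    rw [sq_smul, nrr] at h4
    linarith
  refine (Finset.sum_le_sum fun i _ => h2 i).trans ?_
  rw [Finset.sum_add_distrib, Finset.sum_add_distrib, ← Finset.mul_sum, ← Finset.mul_sum,
    ← Finset.mul_sum]
  linarith

/-- The map `β ↦ (R β, β)`. -/
def GLm (σ : Fin p → Fin q → Bool) : (Fin q → ℂ) →ₗ[ℂ] (Fin p ⊕ Fin q → ℂ) where
  toFun β := Sum.elim (RV σ β) β
  map_add' x y := by
    rw [map_add]
    funext k
    rcases k with k | k <;> rfl
  map_smul' c x := by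
    rw [map_smul]
    funext k
    rcases k with k | k <;> rfl

theorem sq_GL (β : Fin q → ℂ) : sq (GLm σ β) = sq (RV σ β) + sq β := sq_elim _ _

theorem sum_elim_smul {ι κ μ : Type} [Fintype μ] (c : μ → ℂ) (x : μ → ι → ℂ) (y : μ → κ → ℂ) :
    ∑ j, c j • Sum.elim (x j) (y j) = Sum.elim (∑ j, c j • x j) (∑ j, c j • y j) := by
  funext k
  rcases k with k | k
  · simp only [Finset.sum_apply, Pi.smul_apply, Sum.elim_inl]
  · simp only [Finset.sum_apply, Pi.smul_apply, Sum.elim_inr]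

theorem elim_sub {ι κ : Type} (x x' : ι → ℂ) (y y' : κ → ℂ) :
    Sum.elim x y - Sum.elim x' y' = Sum.elim (x - x') (y - y') := by
  funext k
  rcases k with k | k <;> rfl

theorem smul_elim {ι κ : Type} (c : ℂ) (x : ι → ℂ) (y : κ → ℂ) :
    c • Sum.elim x y = Sum.elim (c • x) (c • y) := by
  funext k
  rcases k with k | k <;> rfl

/-- The last term, first component. -/
theorem T5a (h4 : S_DU) (T : Tik lab W ε₃ ϵ) :
    ∑ i, sq (∑ j, (ip (W.mulVec (va lab j)) (W.mulVec (va lab i)) *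
      ((Real.sqrt (s.ϖ j) : ℝ) : ℂ)) • RV σ (res lab.S'ᶜ (lab.bh j))) ≤ (ε / 16) ^ 2 := by
  classical
  set g : Fin N → Fin p → ℂ := fun j => rr s j • RV σ (res lab.S'ᶜ (lab.bh j)) with hg
  set hh : Fin N → Fin p → ℂ := fun i =>
    ∑ j, ip (W.mulVec (va lab j)) (W.mulVec (va lab i)) • g j with hhd
  set f : Fin N → Fin p → ℂ := fun i =>
    ∑ j, ip (W.mulVec (va lab j)) (W.mulVec (lam lab i)) • g j with hf
  have e0 : ∀ i, ∑ j, (ip (W.mulVec (va lab j)) (W.mulVec (va lab i)) *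
      ((Real.sqrt (s.ϖ j) : ℝ) : ℂ)) • RV σ (res lab.S'ᶜ (lab.bh j)) = hh i := by
    intro i
    refine Finset.sum_congr rfl fun j _ => ?_
    rw [← smul_smul]
    rfl
  have e1 : ∀ i, hh i = rr s i • f i := by
    intro i
    rw [hhd, hf]
    simp only
    rw [Finset.smul_sum]
    refine Finset.sum_congr rfl fun j _ => ?_
    have e2 : W.mulVec (va lab i) = rr s i • W.mulVec (lam lab i) := by
      unfold va
      rw [Matrix.mulVec_smul]
    rw [e2, ip_smul_right, mul_smul]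
  have e3 : ∀ i, ip (hh i) (g i) = (s.ϖ i : ℂ) * ip (f i) (RV σ (res lab.S'ᶜ (lab.bh i))) := by
    intro i
    rw [e1 i, hg]
    simp only
    rw [ip_smul_right, ← rr_mul]
    unfold rr
    rw [ip_smul_left_real]
    ring
  have e4 : ∀ i, sq (hh i) = s.ϖ i * sq (f i) := by
    intro i
    rw [e1 i, sq_smul, nrr]
  have hdu := h4 (Kap d p lab.S) (Fin N) (Fin p) (fun j => W.mulVec (va lab j)) g hh
    (fun v => by
      have := ta_bd lab T v
      rwa [one_mul] at this) (fun i => rfl)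
  -- the linear map
  set Φ : (Kap d p lab.S → ℂ) →ₗ[ℂ] (Fin p → ℂ) :=
    ∑ j, ((ipL (W.mulVec (va lab j))) ∘ₗ W.mulVecLin).smulRight (g j) with hΦ
  have eΦ : ∀ x, Φ x = ∑ j, ip (W.mulVec (va lab j)) (W.mulVec x) • g j := by
    intro x
    rw [hΦ, LinearMap.sum_apply]
    rfl
  set Ψ : Arg d p q →ₗ[ℂ] (Fin p → ℂ) := Φ ∘ₗ (mkL d p lab.S) with hΨ
  set m1 : (Fin d → ℂ) →ₗ[ℂ] (Fin p → ℂ) :=
    Ψ ∘ₗ LinearMap.inl ℂ (Fin d → ℂ) ((Fin p → ℂ) × (Fin p → ℂ) × (Fin q → ℂ)) with hm1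
  set m2 : (Fin p → ℂ) →ₗ[ℂ] (Fin p → ℂ) :=
    Ψ ∘ₗ LinearMap.inr ℂ (Fin d → ℂ) ((Fin p → ℂ) × (Fin p → ℂ) × (Fin q → ℂ)) ∘ₗ
      LinearMap.inl ℂ (Fin p → ℂ) ((Fin p → ℂ) × (Fin q → ℂ)) with hm2
  set m3 : (Fin q → ℂ) →ₗ[ℂ] (Fin p → ℂ) :=
    Ψ ∘ₗ LinearMap.inr ℂ (Fin d → ℂ) ((Fin p → ℂ) × (Fin p → ℂ) × (Fin q → ℂ)) ∘ₗ
      LinearMap.inr ℂ (Fin p → ℂ) ((Fin p → ℂ) × (Fin q → ℂ)) ∘ₗ
        (LinearMap.prod (RV σ) LinearMap.id) with hm3
  have hdec : ∀ i, f i = (LinearMap.toMatrix' m1).mulVec (lab.eh i) +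
      (LinearMap.toMatrix' m2).mulVec (lab.ah i) +
        (LinearMap.toMatrix' m3).mulVec (res lab.S (lab.bh i)) := by
    intro i
    rw [LinearMap.toMatrix'_mulVec, LinearMap.toMatrix'_mulVec, LinearMap.toMatrix'_mulVec]
    have e5 : f i = Ψ (lamA lab i) := by
      rw [hΨ, LinearMap.comp_apply, eΦ]
      rfl
    have e6 : lamA lab i = (lab.eh i, (0, (0, 0))) + (0, (lab.ah i, (0, 0))) +
        (0, (0, (RV σ (res lab.S (lab.bh i)), res lab.S (lab.bh i)))) := by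
      unfold lamA
      simp only [Prod.mk_add_mk, add_zero, zero_add]
    rw [e5, e6, map_add, map_add]
    rfl
  have hlp := lab.hLP _ _ _ f hdec
  have e7 : ∑ i, ip (hh i) (g i) =
      ∑ j, (s.ϖ j : ℂ) * ip (f j) (RV σ (res lab.S'ᶜ (lab.bh j))) :=
    Finset.sum_congr rfl fun i _ => e3 i
  have e8 : ∑ i, sq (hh i) = ∑ j, s.ϖ j * sq (f j) := Finset.sum_congr rfl fun i _ => e4 i
  rw [← e7, ← e8] at hlp
  have e9 : ∑ i, sq (∑ j, (ip (W.mulVec (va lab j)) (W.mulVec (va lab i)) *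
      ((Real.sqrt (s.ϖ j) : ℝ) : ℂ)) • RV σ (res lab.S'ᶜ (lab.bh j))) = ∑ i, sq (hh i) :=
    Finset.sum_congr rfl fun i _ => by rw [e0 i]
  rw [e9]
  set B2 := ∑ i, sq (hh i) with hB2
  have hB0 : 0 ≤ B2 := Finset.sum_nonneg fun i _ => sq_nn _
  have h7 : B2 ^ 2 ≤ (ε / 16) ^ 2 * B2 := (pow_le_pow_left₀ hB0 hdu 2).trans hlp
  rcases hB0.eq_or_lt with h8 | h8
  · rw [← h8]; positivity
  · have : B2 * B2 ≤ (ε / 16) ^ 2 * B2 := by rw [← pow_two]; exact h7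
    exact le_of_mul_le_mul_right this h8

/-- The last term, second component. -/
theorem T5b (h3 : S_WP) (T : Tik lab W ε₃ ϵ) (hR : 0 ≤ R) :
    ∑ i, sq (∑ j, (ip (W.mulVec (va lab j)) (W.mulVec (va lab i)) *
      ((Real.sqrt (s.ϖ j) : ℝ) : ℂ)) • res lab.S'ᶜ (lab.bh j)) ≤ (ε / 16) ^ 2 := by
  classical
  have h := h3 (Kap d p lab.S) (Fin N) (fun j => W.mulVec (va lab j)) q s.ϖ
    (fun j => res lab.S'ᶜ (lab.bh j)) R lab.η (d + 2 * p + lab.S.card) s.hϖ hR lab.hη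
    (fun v => by
      have := ta_bd lab T v
      rwa [one_mul] at this)
    (by
      have := T.t4
      rw [card_kap] at this
      push_cast at this
      exact this)
    (fun j => (l1_res_le _ _).trans (lab.hbh j))
    (fun t => by
      by_cases ht : t ∈ lab.S'
      · have e : ∑ j, s.ϖ j * ‖res lab.S'ᶜ (lab.bh j) t‖ = 0 := by
          refine Finset.sum_eq_zero fun j _ => ?_
          rw [res_off _ _ t (by simpa using ht), norm_zero, mul_zero]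
        rw [e]
        exact lab.hη
      · refine le_trans (Finset.sum_le_sum fun j _ => ?_) (lab.hlight t ht)
        refine mul_le_mul_of_nonneg_left ?_ (s.hϖ j)
        unfold res
        rw [if_pos (by simpa using ht)])
  exact h.trans lab.hW

theorem sum_vb : ∑ j, sq (vb lab j) ≤ 1000 * K * δ ^ 2 := by
  refine le_trans (le_of_eq ?_) lab.hν
  refine Finset.sum_congr rfl fun j _ => ?_
  unfold vb
  rw [sq_smul, nrr, sq_nu]

theorem cij_split (i j : Fin N) : cij lab W i j =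
    ip (W.mulVec (va lab j)) (W.mulVec (va lab i)) * rr s j +
      ip (W.mulVec (va lab j)) (W.mulVec (vb lab i)) * rr s j := by
  unfold cij sji
  rw [Matrix.mulVec_add, ip_add_right, add_mul]

/-- The whole `y` part. -/
theorem y_part (h3 : S_WP) (h4 : S_DU) (h5 : S_OPN) (T : Tik lab W ε₃ ϵ) (h0 : 0 ≤ ε₃)
    (h : ε₃ ≤ 1) (hR : 0 ≤ R) :
    ∑ i, s.ϖ i *
      (sq (∑ j, ((s.ϖ j : ℂ) * gg lab W j (s.e i, s.A i, s.u i, s.w i)) • s.u j -
        RV σ (res lab.S (lab.bh i))) +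
      sq (∑ j, ((s.ϖ j : ℂ) * gg lab W j (s.e i, s.A i, s.u i, s.w i)) • s.w j -
        res lab.S (lab.bh i))) ≤
    5 * (∑ i, sqA (XA lab W i) + 64 * K * δ ^ 2 + 16 * K * δ ^ 2 + ε₃ * (9 * K) +
      2 * (ε / 16) ^ 2) := by
  set y : Fin N → Fin p ⊕ Fin q → ℂ := fun j => Sum.elim (s.u j) (s.w j) with hy
  set ρ : Fin N → Fin p ⊕ Fin q → ℂ := fun j => y j - GLm σ (lab.bh j) with hρ
  set b1 : Fin N → Fin q → ℂ := fun j => res lab.S (lab.bh j) with hb1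
  set sh : Fin N → Fin q → ℂ := fun j => res (lab.S' \ lab.S) (lab.bh j) with hsh
  set vl : Fin N → Fin q → ℂ := fun j => res lab.S'ᶜ (lab.bh j) with hvl
  have ey : ∀ j, y j = GLm σ (b1 j) + ρ j + GLm σ (sh j) + GLm σ (vl j) := by
    intro j
    have e1 : GLm σ (lab.bh j) = GLm σ (b1 j) + GLm σ (sh j) + GLm σ (vl j) := by
      rw [← map_add, ← map_add]
      congr 1
      exact res_split lab.S lab.S' lab.hSS (lab.bh j)
    rw [hρ]
    simp only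
    rw [e1]
    abel
  set A1 : Fin N → Fin p ⊕ Fin q → ℂ := fun i =>
    ∑ j, cij lab W i j • GLm σ (b1 j) - rr s i • GLm σ (b1 i) with hA1
  set A2 : Fin N → Fin p ⊕ Fin q → ℂ := fun i => ∑ j, cij lab W i j • ρ j with hA2
  set A3 : Fin N → Fin p ⊕ Fin q → ℂ := fun i => ∑ j, cij lab W i j • GLm σ (sh j) with hA3
  set A4 : Fin N → Fin p ⊕ Fin q → ℂ := fun i =>
    ∑ j, (ip (W.mulVec (va lab j)) (W.mulVec (vb lab i)) * rr s j) • GLm σ (vl j) with hA4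
  set A5 : Fin N → Fin p ⊕ Fin q → ℂ := fun i =>
    ∑ j, (ip (W.mulVec (va lab j)) (W.mulVec (va lab i)) * rr s j) • GLm σ (vl j) with hA5
  have b1' : ∀ i, sq (A1 i) ≤ sqA (XA lab W i) := by
    intro i
    have e1 : A1 i = Sum.elim (XA lab W i).2.2.1 (XA lab W i).2.2.2 := by
      rw [XA_3, XA_4]
      show ∑ j, cij lab W i j • Sum.elim (RV σ (b1 j)) (b1 j) -
        rr s i • Sum.elim (RV σ (b1 i)) (b1 i) = _
      rw [sum_elim_smul, smul_elim, elim_sub]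
    rw [e1, sq_elim]
    unfold sqA
    have := sq_nn (XA lab W i).1
    have := sq_nn (XA lab W i).2.1
    linarith
  have b2' : ∑ i, sq (A2 i) ≤ 64 * K * δ ^ 2 := by
    refine (cij_opn lab h5 T h ρ).trans ?_
    have h6 : ∑ j, s.ϖ j * sq (ρ j) ≤ ∑ j, s.ϖ j * (16 * δ ^ 2) := by
      refine Finset.sum_le_sum fun j _ => mul_le_mul_of_nonneg_left ?_ (s.hϖ j)
      have e1 : ρ j = Sum.elim (s.u j - RV σ (lab.bh j)) (s.w j - lab.bh j) := by
        show Sum.elim (s.u j) (s.w j) - Sum.elim (RV σ (lab.bh j)) (lab.bh j) = _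
        rw [elim_sub]
      rw [e1, sq_elim]
      exact lab.hy j
    rw [← Finset.sum_mul] at h6
    have h7 : (∑ j, s.ϖ j) * (16 * δ ^ 2) ≤ K * (16 * δ ^ 2) :=
      mul_le_mul_of_nonneg_right s.hK (by positivity)
    linarith
  have b3' : ∑ i, sq (A3 i) ≤ 16 * K * δ ^ 2 := by
    refine (cij_opn lab h5 T h (fun j => GLm σ (sh j))).trans ?_
    have h6 : ∑ j, s.ϖ j * sq (GLm σ (sh j)) ≤ 4 * K * δ ^ 2 := by
      refine le_trans (le_of_eq ?_) lab.hsh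
      refine Finset.sum_congr rfl fun j _ => ?_
      rw [sq_GL]
    linarith
  have b4' : ∑ i, sq (A4 i) ≤ ε₃ * (9 * K) := by
    refine (opn' h5 (fun j => W.mulVec (va lab j)) (fun i => W.mulVec (vb lab i))
      (fun j => GLm σ (vl j)) s.ϖ s.hϖ 1 ε₃ (by norm_num) h0 (ta_bd lab T)
      (tb_bd lab T)).trans ?_
    have h6 : ∑ j, s.ϖ j * sq (GLm σ (vl j)) ≤ ∑ j, s.ϖ j * 9 := by
      refine Finset.sum_le_sum fun j _ => mul_le_mul_of_nonneg_left ?_ (s.hϖ j)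
      rw [sq_GL]
      exact lab.hvl j
    rw [← Finset.sum_mul] at h6
    have h7 : (∑ j, s.ϖ j) * 9 ≤ K * 9 := mul_le_mul_of_nonneg_right s.hK (by norm_num)
    rw [one_mul]
    refine mul_le_mul_of_nonneg_left ?_ h0
    linarith
  have b5' : ∑ i, sq (A5 i) ≤ 2 * (ε / 16) ^ 2 := by
    have e1 : ∀ i, sq (A5 i) = sq (∑ j, (ip (W.mulVec (va lab j)) (W.mulVec (va lab i)) *
        ((Real.sqrt (s.ϖ j) : ℝ) : ℂ)) • RV σ (res lab.S'ᶜ (lab.bh j))) +
        sq (∑ j, (ip (W.mulVec (va lab j)) (W.mulVec (va lab i)) *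
        ((Real.sqrt (s.ϖ j) : ℝ) : ℂ)) • res lab.S'ᶜ (lab.bh j)) := by
      intro i
      rw [← sq_elim, ← sum_elim_smul]
      rfl
    rw [Finset.sum_congr rfl fun i _ => e1 i, Finset.sum_add_distrib]
    have h6 := T5a lab h4 T
    have h7 := T5b lab h3 T hR
    linarith
  have hm : ∀ i, s.ϖ i *
      (sq (∑ j, ((s.ϖ j : ℂ) * gg lab W j (s.e i, s.A i, s.u i, s.w i)) • s.u j -
        RV σ (res lab.S (lab.bh i))) +
      sq (∑ j, ((s.ϖ j : ℂ) * gg lab W j (s.e i, s.A i, s.u i, s.w i)) • s.w j -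
        res lab.S (lab.bh i))) ≤
      5 * (sqA (XA lab W i) + sq (A2 i) + sq (A3 i) + sq (A4 i) + sq (A5 i)) := by
    intro i
    have e1 : s.ϖ i *
      (sq (∑ j, ((s.ϖ j : ℂ) * gg lab W j (s.e i, s.A i, s.u i, s.w i)) • s.u j -
        RV σ (res lab.S (lab.bh i))) +
      sq (∑ j, ((s.ϖ j : ℂ) * gg lab W j (s.e i, s.A i, s.u i, s.w i)) • s.w j -
        res lab.S (lab.bh i))) =
        sq (∑ j, cij lab W i j • y j - rr s i • GLm σ (b1 i)) := by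
      rw [mul_add, ← nrr s i, ← sq_smul, ← sq_smul, smul_sub, smul_sub]
      have p1 := pull lab W i s.u
      have p2 := pull lab W i s.w
      unfold zA at p1 p2
      rw [p1, p2, ← sq_elim, ← elim_sub, ← sum_elim_smul, ← smul_elim]
      rfl
    have e2 : ∑ j, cij lab W i j • y j - rr s i • GLm σ (b1 i) =
        A1 i + A2 i + A3 i + A4 i + A5 i := by
      have e3 : ∀ j, cij lab W i j • y j = cij lab W i j • GLm σ (b1 j) + cij lab W i j • ρ j +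
          cij lab W i j • GLm σ (sh j) +
          (ip (W.mulVec (va lab j)) (W.mulVec (vb lab i)) * rr s j) • GLm σ (vl j) +
          (ip (W.mulVec (va lab j)) (W.mulVec (va lab i)) * rr s j) • GLm σ (vl j) := by
        intro j
        rw [ey j, smul_add, smul_add, smul_add]
        have e4 : cij lab W i j • GLm σ (vl j) =
          (ip (W.mulVec (va lab j)) (W.mulVec (vb lab i)) * rr s j) • GLm σ (vl j) +
          (ip (W.mulVec (va lab j)) (W.mulVec (va lab i)) * rr s j) • GLm σ (vl j) := by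
          rw [← add_smul, cij_split, add_comm]
        rw [e4]
        abel
      rw [Finset.sum_congr rfl fun j _ => e3 j]
      simp only [Finset.sum_add_distrib]
      rw [hA1, hA2, hA3, hA4, hA5]
      simp only
      abel
    rw [e1, e2]
    refine (sq_add5_le _ _ _ _ _).trans ?_
    have := b1' i
    linarith
  refine (Finset.sum_le_sum fun i _ => hm i).trans ?_
  rw [← Finset.mul_sum, Finset.sum_add_distrib, Finset.sum_add_distrib, Finset.sum_add_distrib,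
    Finset.sum_add_distrib]
  linarith

theorem err_bd (T : Tik lab W ε₃ ϵ) (h0 : 0 < ε₃) (h1 : 0 ≤ ϵ) :
    ∑ i, sqA (XA lab W i) ≤ 16 * (1000 * K * δ ^ 2 / ε₃ + ϵ * (p : ℝ) ^ 2) := by
  have h2 := T.t5
  rw [Finset.sum_congr rfl fun i _ => sq_err lab W i] at h2
  refine h2.trans ?_
  have h3 : (∑ j, sq (vb lab j)) / ε₃ ≤ 1000 * K * δ ^ 2 / ε₃ :=
    div_le_div_of_nonneg_right (sum_vb lab) h0.le
  have h4 : (Fintype.card (Kap d p lab.S) : ℝ) ≤ (p : ℝ) ^ 2 := by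
    rw [card_kap]
    exact_mod_cast lab.hcard
  have h5 := mul_le_mul_of_nonneg_left h4 h1
  linarith

/-- The `e` and `A` parts. -/
theorem eA_part (h5 : S_OPN) (T : Tik lab W ε₃ ϵ) (h : ε₃ ≤ 1) :
    ∑ i, s.ϖ i * (sq (s.e i - ∑ j, ((s.ϖ j : ℂ) *
        gg lab W j (s.e i, s.A i, s.u i, s.w i)) • s.e j) +
      sq (s.A i - ∑ j, ((s.ϖ j : ℂ) * gg lab W j (s.e i, s.A i, s.u i, s.w i)) • s.A j)) ≤
    2 * ∑ i, sqA (XA lab W i) + 20 * (1000 * K * δ ^ 2) := by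
  have h1 := e_part lab h5 T h s.e lab.eh
  have h2 := e_part lab h5 T h s.A lab.ah
  unfold zA at h1 h2
  have h3 : ∑ i, sq (∑ j, cij lab W i j • lab.eh j - rr s i • lab.eh i) +
      ∑ i, sq (∑ j, cij lab W i j • lab.ah j - rr s i • lab.ah i) ≤
      ∑ i, sqA (XA lab W i) := by
    rw [← Finset.sum_add_distrib]
    refine Finset.sum_le_sum fun i _ => ?_
    rw [← XA_1, ← XA_2]
    unfold sqA
    have := sq_nn (XA lab W i).2.2.1
    have := sq_nn (XA lab W i).2.2.2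
    linarith
  have h4 : ∑ j, s.ϖ j * sq (s.e j - lab.eh j) + ∑ j, s.ϖ j * sq (s.A j - lab.ah j) ≤
      1000 * K * δ ^ 2 := by
    rw [← Finset.sum_add_distrib]
    refine le_trans (Finset.sum_le_sum fun j _ => ?_) lab.hν
    rw [← mul_add]
    refine mul_le_mul_of_nonneg_left ?_ (s.hϖ j)
    have := sq_nn (RV σ (lab.bm (s.u j, s.w j) - res lab.S (lab.bh j)))
    have := sq_nn (lab.bm (s.u j, s.w j) - res lab.S (lab.bh j))
    linarith
  simp only [mul_add, Finset.sum_add_distrib]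
  linarith

/-- The bound of the functionals. -/
theorem gg_bd (h6 : S_RL) (hp : 1 ≤ p) (_hR : 0 ≤ R) (hΛ : 1 ≤ Λ) (T : Tik lab W ε₃ ϵ)
    (h0 : 0 < ϵ) (j : Fin N) (x : Arg d p q) :
    ‖gg lab W j x‖ ^ 2 ≤ ϵ⁻¹ ^ 2 * (4 * d * p ^ 2 + 3 * R ^ 2) * (4 * Λ ^ 2) * sqA x := by
  rw [gg_x]
  refine (ip_cs _ _).trans ?_
  have t3 : ∀ x : Kap d p lab.S → ℂ, sq (W.mulVec x) ≤ ϵ⁻¹ * sq x := by
    intro x
    rw [inv_mul_eq_div, le_div_iff₀ h0, mul_comm]
    exact T.t3 x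
  have a1 : sq (lam lab j) ≤ 4 * d * p ^ 2 + 3 * R ^ 2 := by
    unfold lam
    rw [sq_mkL_off d p lab.S _ (lamA_off lab j)]
    unfold sqA lamA
    simp only
    have c1 : sq (lab.eh j) ≤ 4 * d * p ^ 2 := by
      unfold sq
      calc ∑ t, ‖lab.eh j t‖ ^ 2 ≤ ∑ _t : Fin d, (2 * (p : ℝ)) ^ 2 :=
            Finset.sum_le_sum fun t _ => pow_le_pow_left₀ (norm_nonneg _) (lab.heh j t) 2
        _ = 4 * d * p ^ 2 := by
            rw [Finset.sum_const, Finset.card_univ, Fintype.card_fin, nsmul_eq_mul]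
            ring
    have c2 : sq (lab.ah j) ≤ R ^ 2 :=
      (sq_le_l1 _).trans (pow_le_pow_left₀ (l1_nn _) (lab.hah j) 2)
    have c3 : l1 (res lab.S (lab.bh j)) ≤ R := (l1_res_le _ _).trans (lab.hbh j)
    have c4 : sq (res lab.S (lab.bh j)) ≤ R ^ 2 :=
      (sq_le_l1 _).trans (pow_le_pow_left₀ (l1_nn _) c3 2)
    have c5 : sq (RV σ (res lab.S (lab.bh j))) ≤ R ^ 2 :=
      (h6 p q σ hp _).trans (pow_le_pow_left₀ (l1_nn _) c3 2)
    linarith
  have a2 : sq (mkL d p lab.S (lmA d σ lab.bm x)) ≤ 4 * Λ ^ 2 * sqA x := by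
    rw [sq_mkL_off d p lab.S _ (fun t ht => lab.hbm _ t ht)]
    have c1 := lab.hbn x.2.2
    have c2 := sq_nn x.1
    have c3 := sq_nn x.2.1
    have c4 : 1 ≤ Λ ^ 2 := one_le_pow₀ hΛ
    show sq x.1 + sq x.2.1 + sq (RV σ (lab.bm x.2.2)) + sq (lab.bm x.2.2) ≤
      4 * Λ ^ 2 * (sq x.1 + sq x.2.1 + sq x.2.2.1 + sq x.2.2.2)
    nlinarith
  have a3 := (t3 (lam lab j)).trans (mul_le_mul_of_nonneg_left a1 (inv_nonneg.mpr h0.le))
  have a4 := (t3 (mkL d p lab.S (lmA d σ lab.bm x))).trans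
    (mul_le_mul_of_nonneg_left a2 (inv_nonneg.mpr h0.le))
  have a5 := mul_le_mul a3 a4 (sq_nn _) (mul_nonneg (inv_nonneg.mpr h0.le) (by positivity))
  refine a5.trans (le_of_eq ?_)
  ring

end data

theorem consts (K ε δ : ℝ) (hK : 1 ≤ K) (hε : 0 < ε) (hε1 : ε ≤ 1) (hδ : 0 < δ)
    (h : 2 ^ 20 * K * δ ≤ ε ^ 2) :
    K * δ ^ 2 ≤ ε ^ 2 / 2 ^ 40 ∧
      1000 * K * δ ^ 2 / (ε ^ 2 / (2 ^ 10 * K)) ≤ ε ^ 2 / 2 ^ 20 := by
  have hK0 : 0 < K := by linarith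
  have h1 : (2 ^ 20 * K * δ) ^ 2 ≤ (ε ^ 2) ^ 2 :=
    pow_le_pow_left₀ (by positivity) h 2
  have h2 : ε ^ 2 ≤ 1 := pow_le_one₀ hε.le hε1
  have h3 : 0 < ε ^ 2 := by positivity
  have h4 : K ^ 2 * δ ^ 2 ≤ ε ^ 2 * ε ^ 2 / 2 ^ 40 := by
    rw [le_div_iff₀ (by positivity)]
    have : (2 ^ 20 * K * δ) ^ 2 = K ^ 2 * δ ^ 2 * 2 ^ 40 := by ring
    nlinarith
  have h5 : ε ^ 2 * ε ^ 2 ≤ ε ^ 2 := by nlinarith
  refine ⟨?_, ?_⟩
  · have h6 : K * δ ^ 2 ≤ K ^ 2 * δ ^ 2 := by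
      refine mul_le_mul_of_nonneg_right ?_ (by positivity)
      nlinarith
    refine h6.trans (h4.trans ?_)
    exact div_le_div_of_nonneg_right h5 (by positivity)
  · have e1 : 1000 * K * δ ^ 2 / (ε ^ 2 / (2 ^ 10 * K)) = 1024000 * (K ^ 2 * δ ^ 2) / ε ^ 2 := by
      field_simp
      ring
    rw [e1, div_le_iff₀ h3]
    have : 1024000 * (K ^ 2 * δ ^ 2) ≤ 1024000 * (ε ^ 2 * ε ^ 2 / 2 ^ 40) := by linarith
    refine this.trans ?_
    have h7 : 0 ≤ ε ^ 2 * ε ^ 2 := by positivity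
    rw [show ε ^ 2 / 2 ^ 20 * ε ^ 2 = (ε ^ 2 * ε ^ 2) / 2 ^ 20 by ring]
    rw [show (1024000 : ℝ) * (ε ^ 2 * ε ^ 2 / 2 ^ 40) = (ε ^ 2 * ε ^ 2) * (1024000 / 2 ^ 40) by
      ring, show (ε ^ 2 * ε ^ 2) / 2 ^ 20 = (ε ^ 2 * ε ^ 2) * (1 / 2 ^ 20) by ring]
    refine mul_le_mul_of_nonneg_left (by norm_num) h7

theorem fin (h1 : S_TIK) (_h2 : S_ADJ) (h3 : S_WP) (h4 : S_DU) (h5 : S_OPN) (h6 : S_RL) :
    S_FIN := by
  intro K ε R δ Λ p q d σ hK hε hε1 hR hδ hrel hΛ hp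
  have hK0 : 0 < K := by linarith
  have hR0 : 0 ≤ R := by linarith
  obtain ⟨k1, k2⟩ := consts K ε δ hK hε hε1 hδ hrel
  have hp' : (1 : ℝ) ≤ p := by exact_mod_cast hp
  have hp0 : (0 : ℝ) < p := by linarith
  have hε2 : 0 < ε ^ 2 := by positivity
  have hε21 : ε ^ 2 ≤ 1 := pow_le_one₀ hε.le hε1
  set ε₃ : ℝ := ε ^ 2 / (2 ^ 10 * K) with hε₃
  set ϵ : ℝ := ε ^ 2 / (2 ^ 24 * (p : ℝ) ^ 2) with hϵ
  have q1 : 0 < ε₃ := by positivity
  have q2 : ε₃ ≤ 1 := by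
    rw [hε₃, div_le_one (by positivity)]
    nlinarith
  have q3 : 0 < ϵ := by positivity
  have q4 : ϵ * (p : ℝ) ^ 2 = ε ^ 2 / 2 ^ 24 := by
    rw [hϵ]
    field_simp
  have q5 : ε₃ * (9 * K) = 9 * ε ^ 2 / 2 ^ 10 := by
    rw [hε₃]
    field_simp
  refine ⟨ϵ⁻¹ ^ 2 * (4 * d * p ^ 2 + 3 * R ^ 2) * (4 * Λ ^ 2), fun θ N s lab => ?_⟩
  obtain ⟨W, w1, w2, w3, w4, w5⟩ :=
    h1 (Kap d p lab.S) (Fin N) (va lab) (vb lab) ε₃ ϵ q1 q2 q3
  have T : Tik lab W ε₃ ϵ := ⟨w1, w2, w3, w4, w5⟩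
  have herr : ∑ i, sqA (XA lab W i) ≤ ε ^ 2 / 2 ^ 15 := by
    refine (err_bd lab T q1 q3.le).trans ?_
    rw [q4]
    have : 16 * (ε ^ 2 / 2 ^ 20 + ε ^ 2 / 2 ^ 24) ≤ ε ^ 2 / 2 ^ 15 := by
      have : 16 * (ε ^ 2 / 2 ^ 20 + ε ^ 2 / 2 ^ 24) = ε ^ 2 * (17 / 2 ^ 20) := by ring
      rw [this]
      have : ε ^ 2 / 2 ^ 15 = ε ^ 2 * (32 / 2 ^ 20) := by ring
      rw [this]
      exact mul_le_mul_of_nonneg_left (by norm_num) hε2.le
    linarith
  set ef : Fin (Fintype.card (Kap d p lab.S)) ≃ Kap d p lab.S :=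
    (Fintype.equivFin (Kap d p lab.S)).symm with hef
  refine ⟨{
    g := gg lab W
    n := Fintype.card (Kap d p lab.S)
    B := fun m j => (starRingEnd ℂ) (W.mulVec (va lab j) (ef m))
    C := fun m i => W.mulVec (va lab i + vb lab i) (ef m)
    c := fun i => res lab.S (lab.bh i)
    hn := by
      rw [card_kap]
      exact lab.hcard
    hg := fun j x => gg_bd lab h6 hp hR0 hΛ T q3 j x
    hBC := ?_
    hB := ?_
    hC := ?_
    he := ?_
    hc := fun i => (l1_res_le _ _).trans (lab.hbh i)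
    hy := ?_ }⟩
  · intro j i
    have e1 := key lab W i j
    have e2 : sji lab W i j = ∑ m, (starRingEnd ℂ) (W.mulVec (va lab j) (ef m)) *
        W.mulVec (va lab i + vb lab i) (ef m) := by
      rw [Equiv.sum_comp ef (fun k => (starRingEnd ℂ) (W.mulVec (va lab j) k) *
        W.mulVec (va lab i + vb lab i) k)]
      rfl
    rw [← e2, e1]
    unfold rr zA
    push_cast
    rfl
  · intro v
    have e1 : ∀ m, ‖∑ j, (starRingEnd ℂ) (W.mulVec (va lab j) (ef m)) * v j‖ ^ 2 =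
        ‖(∑ j, (starRingEnd ℂ) (v j) • W.mulVec (va lab j)) (ef m)‖ ^ 2 := by
      intro m
      rw [← RCLike.norm_conj (∑ j, (starRingEnd ℂ) (W.mulVec (va lab j) (ef m)) * v j), map_sum,
        Finset.sum_apply]
      congr 2
      refine Finset.sum_congr rfl fun j _ => ?_
      rw [map_mul, Complex.conj_conj, Pi.smul_apply, smul_eq_mul, mul_comm]
    rw [Finset.sum_congr rfl fun m _ => e1 m]
    rw [Equiv.sum_comp ef (fun k => ‖(∑ j, (starRingEnd ℂ) (v j) • W.mulVec (va lab j)) k‖ ^ 2)]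
    have e2 := ta_bd lab T (fun j => (starRingEnd ℂ) (v j))
    rw [one_mul] at e2
    refine e2.trans (le_of_eq ?_)
    refine Finset.sum_congr rfl fun j _ => ?_
    rw [RCLike.norm_conj]
  · intro v
    have e1 : ∀ m, ‖∑ i, W.mulVec (va lab i + vb lab i) (ef m) * v i‖ ^ 2 =
        ‖(∑ j, v j • W.mulVec (va lab j + vb lab j)) (ef m)‖ ^ 2 := by
      intro m
      rw [Finset.sum_apply]
      congr 2
      refine Finset.sum_congr rfl fun j _ => ?_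
      rw [Pi.smul_apply, smul_eq_mul, mul_comm]
    rw [Finset.sum_congr rfl fun m _ => e1 m]
    rw [Equiv.sum_comp ef (fun k => ‖(∑ j, v j • W.mulVec (va lab j + vb lab j)) k‖ ^ 2)]
    exact tab_bd lab T q2 v
  · refine (eA_part lab h5 T q2).trans ?_
    have : 2 * (ε ^ 2 / 2 ^ 15) + 20 * (1000 * (ε ^ 2 / 2 ^ 40)) ≤ ε ^ 2 := by
      have : 2 * (ε ^ 2 / 2 ^ 15) + 20 * (1000 * (ε ^ 2 / 2 ^ 40)) =
        ε ^ 2 * (2 / 2 ^ 15 + 20000 / 2 ^ 40) := by ring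
      rw [this]
      have : ε ^ 2 * (2 / 2 ^ 15 + 20000 / 2 ^ 40) ≤ ε ^ 2 * 1 :=
        mul_le_mul_of_nonneg_left (by norm_num) hε2.le
      linarith
    linarith
  · refine (y_part lab h3 h4 h5 T q1.le q2 hR0).trans ?_
    rw [q5]
    have e2 : 5 * (ε ^ 2 / 2 ^ 15 + 64 * (ε ^ 2 / 2 ^ 40) + 16 * (ε ^ 2 / 2 ^ 40) +
        9 * ε ^ 2 / 2 ^ 10 + 2 * (ε / 16) ^ 2) ≤ ε ^ 2 := by
      have : 5 * (ε ^ 2 / 2 ^ 15 + 64 * (ε ^ 2 / 2 ^ 40) + 16 * (ε ^ 2 / 2 ^ 40) +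
        9 * ε ^ 2 / 2 ^ 10 + 2 * (ε / 16) ^ 2) =
        ε ^ 2 * (5 * (1 / 2 ^ 15 + 80 / 2 ^ 40 + 9 / 2 ^ 10 + 2 / 256)) := by ring
      rw [this]
      have : ε ^ 2 * (5 * (1 / 2 ^ 15 + 80 / 2 ^ 40 + 9 / 2 ^ 10 + 2 / 256)) ≤ ε ^ 2 * 1 :=
        mul_le_mul_of_nonneg_left (by norm_num) hε2.le
      linarith
    linarith

end Pool.Agent.Helper25.HL.F9

namespace Pool.Agent.Helper9.HL

open Pool.Agent.Helper25.HL

/-- HL-FIN: from the discretised labels to the output of the near-level lemma. -/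
theorem fin (h1 : S_TIK) (h2 : S_ADJ) (h3 : S_WP) (h4 : S_DU) (h5 : S_OPN) (h6 : S_RL) :
    S_FIN := Pool.Agent.Helper25.HL.F9.fin h1 h2 h3 h4 h5 h6

end Pool.Agent.Helper9.HL
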